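import Mathlib
import Pool.Agent.H402R3.Unif

/-! Periodic extension of fields on `ℝ³` which vanish outside the ball of radius `3`. -/

set_option autoImplicit false

open Set MeasureTheory Filter Topology Finset
open scoped RealInnerProductSpace ContDiff

namespace Pool.Agent.H280R3.EU

open Pool.Agent.H402R3

/-- the period cell `[-π, π]³` of the torus -/
def cell : Set V := {x | ∀ i, |x i| ≤ Real.pi}

/-- `2π`-periodic in each of the three coordinates -/
def Per (v : V → V) : Prop := ∀ (i : Fin 3) (x : V), v (x + (2 * Real.pi) • ev i) = v x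

/-- nearest integer to `t / (2π)` -/
noncomputable def nn (t : ℝ) : ℤ := round ((2 * Real.pi)⁻¹ * t)

/-- the vector `2π N` -/
noncomputable def lat (N : Fin 3 → ℤ) : V := WithLp.toLp 2 fun i => (N i : ℝ) * (2 * Real.pi)

/-- reduction to the period cell -/
noncomputable def red (x : V) : V := x - lat fun i => nn (x i)

lemma red_apply (x : V) (i : Fin 3) : red x i = x i - (nn (x i) : ℝ) * (2 * Real.pi) := rfl

lemma abs_red (x : V) (i : Fin 3) : |red x i| = ‖((x i : ℝ) : AddCircle (2 * Real.pi))‖ := by
  rw [AddCircle.norm_eq, red_apply, nn]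

lemma cont_abs_red (i : Fin 3) : Continuous fun x : V => |red x i| := by
  simp only [abs_red]
  have h1 : Continuous fun x : V => x i := by fun_prop
  exact continuous_norm.comp ((AddCircle.continuous_mk' (2 * Real.pi)).comp h1)

lemma norm_sq_red (x : V) : ‖red x‖ ^ 2 = ∑ i, |red x i| ^ 2 := by
  rw [EuclideanSpace.norm_sq_eq]
  simp only [Real.norm_eq_abs]

lemma cont_norm_red : Continuous fun x : V => ‖red x‖ := by
  have h : (fun x : V => ‖red x‖) = fun x : V => Real.sqrt (∑ i, |red x i| ^ 2) := by
    funext x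
    rw [← norm_sq_red, Real.sqrt_sq (norm_nonneg _)]
  rw [h]
  exact Real.continuous_sqrt.comp (continuous_finset_sum _ fun i _ => (cont_abs_red i).pow 2)

lemma nn_eq {t : ℝ} {N : ℤ} (h : |t - N * (2 * Real.pi)| < Real.pi) : nn t = N := by
  have hpi := Real.pi_pos
  unfold nn
  set s := (2 * Real.pi)⁻¹ * t with hs
  have e : t - N * (2 * Real.pi) = (2 * Real.pi) * (s - N) := by
    rw [hs]; field_simp
  have h1 : |s - N| < 1 / 2 := by
    rw [e, abs_mul, abs_of_pos (by positivity)] at h
    nlinarith [abs_nonneg (s - N)]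
  have h2 : |s - round s| ≤ |s - N| := round_le s N
  have h3 : |((round s : ℤ) : ℝ) - N| < 1 := by
    have : ((round s : ℤ) : ℝ) - N = (s - N) - (s - round s) := by ring
    rw [this]
    calc |(s - N) - (s - round s)| ≤ |s - N| + |s - round s| := abs_sub _ _
      _ < 1 := by linarith
  have h4 : |round s - N| < 1 := by exact_mod_cast h3
  have h5 : round s - N = 0 := Int.abs_lt_one_iff.1 h4
  omega

lemma coord_le (x : V) (i : Fin 3) : |x i| ≤ ‖x‖ := by
  have := EuclideanSpace.norm_eq x
  have h1 : |x i| ^ 2 ≤ ‖x‖ ^ 2 := by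
    rw [EuclideanSpace.norm_sq_eq]
    simp only [Real.norm_eq_abs]
    exact Finset.single_le_sum (f := fun i => |x i| ^ 2) (fun i _ => sq_nonneg _) (Finset.mem_univ i)
  exact le_of_sq_le_sq h1 (norm_nonneg _)

/-- near a point whose reduction lies in the ball, the reduction is a translation -/
lemma red_eventually {x : V} (hx : ‖red x‖ ≤ 3) :
    ∀ᶠ y in 𝓝 x, red y = y - lat fun i => nn (x i) := by
  have hpi := Real.pi_gt_three
  have h1 : ∀ i : Fin 3, ∀ᶠ y : V in 𝓝 x, |y i - (nn (x i) : ℝ) * (2 * Real.pi)| < Real.pi := by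
    intro i
    have hc : Continuous fun y : V => |y i - (nn (x i) : ℝ) * (2 * Real.pi)| := by fun_prop
    have h2 : |x i - (nn (x i) : ℝ) * (2 * Real.pi)| < Real.pi := by
      have := coord_le (red x) i
      rw [red_apply] at this
      linarith
    exact hc.continuousAt.eventually (gt_mem_nhds h2)
  have h3 := eventually_all.2 h1
  filter_upwards [h3] with y hy
  unfold red
  congr 2
  funext i
  exact nn_eq (hy i)

lemma red_out {x : V} (hx : 3 < ‖red x‖) : ∀ᶠ y in 𝓝 x, 3 < ‖red y‖ :=
  cont_norm_red.continuousAt.eventually (lt_mem_nhds hx)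

lemma red_add (x : V) (i : Fin 3) : red (x + (2 * Real.pi) • ev i) = red x := by
  have hpi := Real.pi_pos
  ext j
  rw [red_apply, red_apply]
  have hn : (2 * Real.pi) ≠ 0 := by positivity
  by_cases hij : j = i
  · subst hij
    have e : (x + (2 * Real.pi) • ev j) j = x j + 2 * Real.pi := by
      simp [ev]
    rw [e]
    have e2 : nn (x j + 2 * Real.pi) = nn (x j) + 1 := by
      unfold nn
      rw [mul_add, inv_mul_cancel₀ hn, round_add_one]
    rw [e2]
    push_cast
    ring
  · have e : (x + (2 * Real.pi) • ev i) j = x j := by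
      simp [ev, hij]
    rw [e]

/-- in the closed cell the reduction only changes signs of coordinates `±π` -/
lemma norm_red_cell {x : V} (hx : x ∈ cell) : ‖red x‖ = ‖x‖ := by
  have hpi := Real.pi_pos
  have h : ‖red x‖ ^ 2 = ‖x‖ ^ 2 := by
    rw [norm_sq_red, EuclideanSpace.norm_sq_eq]
    refine Finset.sum_congr rfl fun i _ => ?_
    congr 1
    rw [Real.norm_eq_abs]
    rcases lt_or_eq_of_le (hx i) with h1 | h1
    · have e : nn (x i) = 0 := nn_eq (by simpa using h1)
      rw [red_apply, e]
      simp
    · -- |x i| = π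
      rw [abs_red, AddCircle.norm_eq]
      rcases (abs_eq hpi.le).1 h1 with h2 | h2
      · rw [h2]
        have e : (2 * Real.pi)⁻¹ * Real.pi = 2⁻¹ := by field_simp
        rw [e, round_two_inv]
        push_cast
        rw [show Real.pi - 1 * (2 * Real.pi) = -Real.pi by ring, abs_neg]
      · rw [h2]
        have e : (2 * Real.pi)⁻¹ * -Real.pi = -2⁻¹ := by field_simp
        rw [e, round_neg_two_inv]
        simp
  have h0 := norm_nonneg (red x)
  have h1 := norm_nonneg x
  exact (sq_eq_sq₀ h0 h1).1 h

end Pool.Agent.H280R3.EU
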