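import Mathlib
import Pool.Agent.H280R3.EU.Base
import Pool.Agent.H280R3.EU.Per
import Pool.Agent.H402R3.Profile

/-! The Galerkin system of the Euler equations on the torus `𝕋³ = ℝ³ / (2πℤ)³`. -/

set_option autoImplicit false

open Set MeasureTheory Filter Topology Finset
open scoped RealInnerProductSpace ContDiff

namespace Pool.Agent.H280R3.EU

open Pool.Agent.H402R3

/-- `f` vanishes outside the ball of radius `3` -/
def Out (f : V → V) : Prop := ∀ x, 3 < ‖x‖ → f x = 0

/-- periodic extension -/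
noncomputable def pe (f : V → V) : V → V := fun x => f (red x)

lemma pe_per (f : V → V) : Per (pe f) := fun i x => by
  show f (red _) = f (red _)
  rw [red_add]

lemma pe_in {f : V → V} {x : V} (hx : ‖red x‖ ≤ 3) :
    pe f =ᶠ[𝓝 x] fun y => f (y - lat fun i => nn (x i)) := by
  filter_upwards [red_eventually hx] with y hy
  show f (red y) = _
  rw [hy]

lemma pe_out {f : V → V} (hf : Out f) {x : V} (hx : 3 < ‖red x‖) : pe f =ᶠ[𝓝 x] fun _ => 0 := by
  filter_upwards [red_out hx] with y hy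
  exact hf _ hy

lemma pe_contDiff {f : V → V} {n : WithTop ℕ∞} (hf : Out f) (hs : ContDiff ℝ n f) :
    ContDiff ℝ n (pe f) := by
  rw [contDiff_iff_contDiffAt]
  intro x
  rcases le_or_gt ‖red x‖ 3 with hx | hx
  · refine ContDiffAt.congr_of_eventuallyEq ?_ (pe_in hx)
    exact (hs.comp (contDiff_id.sub contDiff_const)).contDiffAt
  · exact contDiffAt_const.congr_of_eventuallyEq (pe_out hf hx)

lemma pe_fderiv {f : V → V} (hf : Out f) (x : V) : fderiv ℝ (pe f) x = fderiv ℝ f (red x) := by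
  rcases le_or_gt ‖red x‖ 3 with hx | hx
  · rw [(pe_in hx).fderiv_eq, fderiv_comp_sub]
    rfl
  · rw [(pe_out hf hx).fderiv_eq, fderiv_zero_of hf _ hx]
    simp

lemma pe_div {f : V → V} (hf : Out f) (hd : ∀ x, divg f x = 0) (x : V) : divg (pe f) x = 0 := by
  unfold divg
  rw [pe_fderiv hf]
  exact hd (red x)

/-- in the cell and in the ball, reduction is the identity -/
lemma red_ball {x : V} (hx : ‖x‖ ≤ 3) : red x = x := by
  have hpi := Real.pi_gt_three
  have h : (fun i => nn (x i)) = fun _ => (0 : ℤ) := by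
    funext i
    refine nn_eq ?_
    have := coord_le x i
    simp only [Int.cast_zero, zero_mul, sub_zero]
    linarith
  unfold red
  rw [h]
  ext j
  simp [lat]

lemma ball_cell {x : V} (hx : ‖x‖ ≤ 3) : x ∈ cell := fun i => by
  have := coord_le x i
  have := Real.pi_gt_three
  linarith

/-- a field vanishing outside the ball agrees with its periodic extension on the cell -/
lemma pe_cell {f : V → V} (hf : Out f) {x : V} (hx : x ∈ cell) : pe f x = f x := by
  rcases le_or_gt ‖x‖ 3 with h | h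
  · show f (red x) = f x
    rw [red_ball h]
  · show f (red x) = f x
    rw [hf x h, hf (red x) (by rw [norm_red_cell hx]; exact h)]

lemma pe_fderiv_cell {f : V → V} (hf : Out f) {x : V} (hx : x ∈ cell) :
    fderiv ℝ (pe f) x = fderiv ℝ f x := by
  rw [pe_fderiv hf]
  rcases le_or_gt ‖x‖ 3 with h | h
  · rw [red_ball h]
  · rw [fderiv_zero_of hf x h, fderiv_zero_of hf (red x) (by rw [norm_red_cell hx]; exact h)]

/-- Solutions on `[0, T]` of the Euler equations on the torus, projected to the closed span of the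
fields `Ψ 0, Ψ 1, …` in `L²(𝕋³)`. -/
structure TorSol (Ψ : ℕ → V → V) (u0 : V → V) (T : ℝ) (u : ℝ → V → V) : Prop where
  init : u 0 = u0
  per : ∀ t ∈ Icc 0 T, Per (u t)
  cd : ∀ t ∈ Icc 0 T, ContDiff ℝ 1 (u t)
  dv : ∀ t ∈ Icc 0 T, ∀ x, divg (u t) x = 0
  cl : ∀ t ∈ Icc 0 T, ∀ η > 0, ∃ w ∈ Submodule.span ℝ (range Ψ), ∫ x in cell, ‖u t x - w x‖ ^ 2 ≤ η
  bdd : ∃ C, ∀ t ∈ Icc 0 T, ∀ x, ‖u t x‖ ≤ C ∧ ‖fderiv ℝ (u t) x‖ ≤ C
  eq : ∀ k, ∀ t ∈ Icc 0 T, HasDerivWithinAt (fun s => ∫ x in cell, ⟪u s x, Ψ k x⟫)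
    (∫ x in cell, ⟪u t x, fderiv ℝ (Ψ k) x (u t x)⟫) (Icc 0 T) t

lemma cell_eq : cell = ⋂ i : Fin 3, (fun x : V => |x i|) ⁻¹' Iic Real.pi := by
  ext x; simp [cell]

lemma cell_closed : IsClosed cell := by
  rw [cell_eq]
  exact isClosed_iInter fun i => isClosed_Iic.preimage (by fun_prop)

lemma cell_meas : MeasurableSet cell := cell_closed.measurableSet

lemma cell_subset : cell ⊆ Metric.closedBall (0 : V) 10 := by
  intro x hx
  have h4 := Real.pi_lt_four
  have h3 := Real.pi_gt_three
  have h1 : ‖x‖ ^ 2 ≤ 10 ^ 2 := by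
    rw [EuclideanSpace.norm_sq_eq, Fin.sum_univ_three]
    simp only [Real.norm_eq_abs]
    have e : ∀ i : Fin 3, |x i| ^ 2 ≤ 16 := by
      intro i
      have := hx i
      nlinarith [abs_nonneg (x i)]
    linarith [e 0, e 1, e 2]
  simp only [Metric.mem_closedBall, dist_zero_right]
  exact le_of_sq_le_sq h1 (by norm_num)

lemma cell_nhds {x : V} (hx : ‖x‖ ≤ 3) : cell ∈ 𝓝 x := by
  have hpi := Real.pi_gt_three
  have h1 : ∀ i : Fin 3, ∀ᶠ y : V in 𝓝 x, |y i| < Real.pi := by
    intro i
    have hc : Continuous fun y : V => |y i| := by fun_prop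
    refine hc.continuousAt.eventually (gt_mem_nhds ?_)
    have := coord_le x i
    linarith
  filter_upwards [eventually_all.2 h1] with y hy i
  exact (hy i).le

section

variable {Φ : ℕ → V → V} {u0 : V → V} {T : ℝ} {u : ℝ → V → V}

lemma span_out (hΦ : ∀ k, Out (Φ k)) {w : V → V} (hw : w ∈ Submodule.span ℝ (range Φ)) : Out w := by
  induction hw using Submodule.span_induction with
  | mem x h => obtain ⟨k, rfl⟩ := h; exact hΦ k
  | zero => intro x _; rfl
  | add a b _ _ ha hb => intro x hx; simp [ha x hx, hb x hx]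
  | smul c a _ ha => intro x hx; simp [ha x hx]

lemma span_cont (hΦ : ∀ k, Continuous (Φ k)) {w : V → V} (hw : w ∈ Submodule.span ℝ (range Φ)) :
    Continuous w := by
  induction hw using Submodule.span_induction with
  | mem x h => obtain ⟨k, rfl⟩ := h; exact hΦ k
  | zero => exact continuous_const
  | add a b _ _ ha hb => exact ha.add hb
  | smul c a _ ha => exact ha.const_smul c

/-- elements of the span of the periodic extensions -/
lemma span_pe {w' : V → V} (hw : w' ∈ Submodule.span ℝ (range fun k => pe (Φ k))) :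
    ∃ w ∈ Submodule.span ℝ (range Φ), w' = pe w := by
  induction hw using Submodule.span_induction with
  | mem x h =>
    obtain ⟨k, rfl⟩ := h
    exact ⟨Φ k, Submodule.subset_span ⟨k, rfl⟩, rfl⟩
  | zero => exact ⟨0, Submodule.zero_mem _, rfl⟩
  | add a b _ _ ha hb =>
    obtain ⟨w1, h1, rfl⟩ := ha
    obtain ⟨w2, h2, rfl⟩ := hb
    exact ⟨w1 + w2, Submodule.add_mem _ h1 h2, rfl⟩
  | smul c a _ ha =>
    obtain ⟨w1, h1, rfl⟩ := ha
    exact ⟨c • w1, Submodule.smul_mem _ c h1, rfl⟩

/-- a solution on the torus vanishes in the cell outside the ball -/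
lemma sol_zero (hΦc : ∀ k, Continuous (Φ k)) (hΦ : ∀ k, Out (Φ k))
    (h : TorSol (fun k => pe (Φ k)) u0 T u) {t : ℝ} (ht : t ∈ Icc 0 T) {x : V} (hx : x ∈ interior cell)
    (h3 : 3 < ‖x‖) : u t x = 0 := by
  have hcont := (h.cd t ht).continuous
  set A : Set V := interior cell ∩ {y | 3 < ‖y‖} with hA
  have hAo : IsOpen A := isOpen_interior.inter (isOpen_lt continuous_const continuous_norm)
  have hAm : MeasurableSet A := hAo.measurableSet
  have hAc : A ⊆ cell := fun y hy => interior_subset hy.1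
  have hint : ∀ v : V → V, Continuous v → IntegrableOn (fun y => ‖v y‖ ^ 2) cell := by
    intro v hv
    have hk : IsCompact cell := (isCompact_closedBall (0 : V) 10).of_isClosed_subset cell_closed
      cell_subset
    exact ((hv.norm.pow 2).continuousOn).integrableOn_compact hk
  have hle : ∀ η > 0, ∫ y in A, ‖u t y‖ ^ 2 ≤ η := by
    intro η hη
    obtain ⟨w', hw', hle⟩ := h.cl t ht η hη
    obtain ⟨w, hw, rfl⟩ := span_pe hw'
    have hwo := span_out hΦ hw
    refine le_trans ?_ hle
    have e : ∫ y in A, ‖u t y‖ ^ 2 = ∫ y in A, ‖u t y - pe w y‖ ^ 2 := by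
      refine setIntegral_congr_fun hAm fun y hy => ?_
      have : pe w y = 0 := by
        rw [pe_cell hwo (hAc hy)]
        exact hwo y hy.2
      simp [this]
    rw [e]
    have hpc : ContinuousOn (fun y => ‖u t y - pe w y‖ ^ 2) cell := by
      have h1 : ContinuousOn (fun y => ‖u t y - w y‖ ^ 2) cell :=
        ((hcont.sub (span_cont hΦc hw)).norm.pow 2).continuousOn
      refine h1.congr fun y hy => ?_
      simp only
      rw [pe_cell hwo hy]
    have hk : IsCompact cell := (isCompact_closedBall (0 : V) 10).of_isClosed_subset cell_closed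
      cell_subset
    exact setIntegral_mono_set (hpc.integrableOn_compact hk)
      (Eventually.of_forall fun y => sq_nonneg _) (Eventually.of_forall hAc)
  have h0 : ∫ y in A, ‖u t y‖ ^ 2 = 0 :=
    le_antisymm (le_of_forall_pos_le_add fun η hη => by simpa using hle η hη)
      (setIntegral_nonneg hAm fun y _ => sq_nonneg _)
  by_contra hne
  have hpos : 0 < ∫ y in A, ‖u t y‖ ^ 2 := by
    rw [setIntegral_pos_iff_support_of_nonneg_ae (Eventually.of_forall fun y => sq_nonneg _)
      ((hint _ hcont).mono_set hAc)]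
    have hsub : {y | u t y ≠ 0} ∩ A ⊆ (Function.support fun y => ‖u t y‖ ^ 2) ∩ A := by
      rintro y ⟨h1, h2⟩
      refine ⟨?_, h2⟩
      simp only [Function.mem_support]
      have : 0 < ‖u t y‖ := norm_pos_iff.2 h1
      positivity
    refine lt_of_lt_of_le ?_ (measure_mono hsub)
    have ho : IsOpen ({y | u t y ≠ 0} ∩ A) := (isOpen_ne_fun hcont continuous_const).inter hAo
    exact ho.measure_pos volume ⟨x, hne, hx, h3⟩
  linarith

/-- cut-off of a periodic solution to the ball -/
noncomputable def cutoff (v : V → V) : V → V := fun x => if ‖x‖ ≤ 3 then v x else 0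

lemma cutoff_near {v : V → V} (hz : ∀ x ∈ interior cell, 3 < ‖x‖ → v x = 0) {x : V} (hx : ‖x‖ ≤ 3) :
    cutoff v =ᶠ[𝓝 x] v := by
  have h1 : interior cell ∈ 𝓝 x := interior_mem_nhds.2 (cell_nhds hx)
  filter_upwards [h1] with y hy
  unfold cutoff
  split_ifs with h
  · rfl
  · push Not at h
    exact (hz y hy h).symm

lemma cutoff_far {v : V → V} {x : V} (hx : 3 < ‖x‖) : cutoff v =ᶠ[𝓝 x] fun _ => 0 := by
  have : {y : V | 3 < ‖y‖} ∈ 𝓝 x := (isOpen_lt continuous_const continuous_norm).mem_nhds hx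
  filter_upwards [this] with y hy
  unfold cutoff
  rw [if_neg (not_le.2 hy)]

lemma cutoff_out (v : V → V) : Out (cutoff v) := fun x hx => by
  unfold cutoff
  rw [if_neg (not_le.2 hx)]

lemma int_cell {F G : V → ℝ} (h1 : ∀ x, 3 < ‖x‖ → G x = 0) (h2 : ∀ x ∈ cell, F x = G x) :
    ∫ x in cell, F x = ∫ x, G x := by
  rw [setIntegral_congr_fun cell_meas h2]
  refine setIntegral_eq_integral_of_forall_compl_eq_zero fun x hx => h1 x ?_
  by_contra h
  exact hx (ball_cell (not_lt.1 h))

lemma pe_span {w : V → V} (hw : w ∈ Submodule.span ℝ (range Φ)) :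
    pe w ∈ Submodule.span ℝ (range fun k => pe (Φ k)) := by
  induction hw using Submodule.span_induction with
  | mem x h =>
    obtain ⟨k, rfl⟩ := h
    exact Submodule.subset_span ⟨k, rfl⟩
  | zero => exact Submodule.zero_mem _
  | add a b _ _ ha hb => exact Submodule.add_mem _ ha hb
  | smul c a _ ha => exact Submodule.smul_mem _ c ha

/-- From a solution on the torus to a solution on `ℝ³`. -/
theorem to_space (hΦ : ∀ k, TF (Φ k)) (hΦo : ∀ k, Out (Φ k)) (hu0 : Out u0) (hT : 0 ≤ T)
    (h : TorSol (fun k => pe (Φ k)) (pe u0) T u) : GSol 0 Φ u0 T (fun t => cutoff (u t)) := by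
  have hz : ∀ t ∈ Icc 0 T, ∀ x ∈ interior cell, 3 < ‖x‖ → u t x = 0 := fun t ht x hx h3 =>
    sol_zero (fun k => (hΦ k).cont) hΦo h ht hx h3
  have hcell : ∀ (v : V → V) (k : ℕ), ∀ x ∈ cell, ⟪v x, pe (Φ k) x⟫ = ⟪cutoff v x, Φ k x⟫ := by
    intro v k x hx
    rw [pe_cell (hΦo k) hx]
    unfold cutoff
    split_ifs with h3
    · rfl
    · rw [hΦo k x (not_le.1 h3)]; simp
  have hcell2 : ∀ (v : V → V) (k : ℕ), ∀ x ∈ cell,
      ⟪v x, fderiv ℝ (pe (Φ k)) x (v x)⟫ = ⟪cutoff v x, fderiv ℝ (Φ k) x (cutoff v x)⟫ := by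
    intro v k x hx
    rw [pe_fderiv_cell (hΦo k) hx]
    unfold cutoff
    split_ifs with h3
    · rfl
    · rw [fderiv_zero_of (hΦo k) x (not_le.1 h3)]; simp
  obtain ⟨C, hC⟩ := h.bdd
  have hC0 : 0 ≤ C := (norm_nonneg _).trans (hC 0 ⟨le_rfl, hT⟩ 0).1
  have hfd : ∀ t ∈ Icc 0 T, ∀ x, (‖x‖ ≤ 3 → fderiv ℝ (cutoff (u t)) x = fderiv ℝ (u t) x) ∧
      (3 < ‖x‖ → fderiv ℝ (cutoff (u t)) x = 0) := by
    intro t ht x
    refine ⟨fun hx => (cutoff_near (hz t ht) hx).fderiv_eq, fun hx => ?_⟩
    rw [(cutoff_far (v := u t) hx).fderiv_eq]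
    simp
  refine ⟨?_, ?_, ?_, ?_⟩
  · show cutoff (u 0) = u0
    rw [h.init]
    funext x
    unfold cutoff
    split_ifs with h3
    · show u0 (red x) = u0 x
      rw [red_ball h3]
    · exact (hu0 x (not_le.1 h3)).symm
  · intro t ht
    refine ⟨⟨?_, ?_, ?_⟩, ?_⟩
    · rw [contDiff_iff_contDiffAt]
      intro x
      rcases le_or_gt ‖x‖ 3 with hx | hx
      · exact (h.cd t ht).contDiffAt.congr_of_eventuallyEq (cutoff_near (hz t ht) hx)
      · exact contDiffAt_const.congr_of_eventuallyEq (cutoff_far hx)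
    · exact HasCompactSupport.intro (isCompact_closedBall (0 : V) 3) fun x hx =>
        cutoff_out _ x (by simpa using hx)
    · intro x
      unfold divg
      rcases le_or_gt ‖x‖ 3 with hx | hx
      · rw [(hfd t ht x).1 hx]
        exact h.dv t ht x
      · rw [(hfd t ht x).2 hx]
        simp
    · intro η hη
      obtain ⟨w', hw', hle⟩ := h.cl t ht η hη
      obtain ⟨w, hw, rfl⟩ := span_pe hw'
      have hwo := span_out hΦo hw
      have hwc := span_cont (fun k => (hΦ k).cont) hw
      refine ⟨w, hw, le_trans ?_ hle⟩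
      rw [← int_cell (F := fun x => ‖cutoff (u t) x - w x‖ ^ 2)
        (G := fun x => ‖cutoff (u t) x - w x‖ ^ 2) (fun x hx => by
          simp [cutoff_out (u t) x hx, hwo x hx]) (fun x _ => rfl)]
      have hk : IsCompact cell := (isCompact_closedBall (0 : V) 10).of_isClosed_subset cell_closed
        cell_subset
      have hcont := (h.cd t ht).continuous
      have hpt : ∀ x ∈ cell, ‖cutoff (u t) x - w x‖ ^ 2 ≤ ‖u t x - pe w x‖ ^ 2 := by
        intro x hx
        rw [pe_cell hwo hx]
        unfold cutoff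
        split_ifs with h3
        · exact le_rfl
        · rw [hwo x (not_le.1 h3)]
          simp
      have hco : Continuous (cutoff (u t)) := by
        rw [continuous_iff_continuousAt]
        intro x
        rcases le_or_gt ‖x‖ 3 with hx | hx
        · exact hcont.continuousAt.congr (cutoff_near (hz t ht) hx).symm
        · exact continuousAt_const.congr (cutoff_far hx).symm
      have hi1 : IntegrableOn (fun x => ‖cutoff (u t) x - w x‖ ^ 2) cell :=
        (((hco.sub hwc).norm.pow 2).continuousOn).integrableOn_compact hk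
      have hi2 : IntegrableOn (fun x => ‖u t x - pe w x‖ ^ 2) cell := by
        have h1 : ContinuousOn (fun y => ‖u t y - w y‖ ^ 2) cell :=
          ((hcont.sub hwc).norm.pow 2).continuousOn
        refine (h1.congr fun y hy => ?_).integrableOn_compact hk
        rw [pe_cell hwo hy]
      exact setIntegral_mono_on hi1 hi2 cell_meas hpt
  · refine ⟨C, fun t ht x => ⟨?_, ?_⟩⟩
    · show ‖cutoff (u t) x‖ ≤ C
      unfold cutoff
      split_ifs
      · exact (hC t ht x).1
      · simpa using hC0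
    · show ‖fderiv ℝ (cutoff (u t)) x‖ ≤ C
      rcases le_or_gt ‖x‖ 3 with hx | hx
      · rw [(hfd t ht x).1 hx]
        exact (hC t ht x).2
      · rw [(hfd t ht x).2 hx]
        simpa using hC0
  · intro k t ht
    have h1 := h.eq k t ht
    have e1 : ∀ s, ∫ x in cell, ⟪u s x, pe (Φ k) x⟫ = ip (cutoff (u s)) (Φ k) := by
      intro s
      exact int_cell (fun x hx => by simp [cutoff_out (u s) x hx]) (hcell (u s) k)
    have e2 : ∫ x in cell, ⟪u t x, fderiv ℝ (pe (Φ k)) x (u t x)⟫
        = tri (cutoff (u t)) (Φ k) (cutoff (u t)) :=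
      int_cell (fun x hx => by simp [cutoff_out (u t) x hx]) (hcell2 (u t) k)
    simp only [e1, e2] at h1
    simpa using h1

end

/-- Breakdown for a Galerkin projection of the Euler equations on the torus. -/
theorem tor_main : ∃ (Ψ : ℕ → V → V) (u₀ : V → V) (T : ℝ),
    (∀ k, ContDiff ℝ ∞ (Ψ k) ∧ Per (Ψ k) ∧ ∀ x, divg (Ψ k) x = 0) ∧
    u₀ ∈ Submodule.span ℝ (range Ψ) ∧ 0 < T ∧ ∀ u : ℝ → V → V, ¬ TorSol Ψ u₀ T u := by
  obtain ⟨φ, ρ, ψ, x₁, P⟩ := exists_prof
  obtain ⟨T, hT, lam, d, S, h⟩ := main_prof0 P (le_refl (0 : ℝ))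
  set Φ := Fam φ ψ ρ (MM lam) (EE lam) with hΦd
  have hsm : ∀ k, ContDiff ℝ ∞ (Φ k) := by
    intro k
    cases k with
    | zero => exact PP_smooth P S
    | succ n => exact sc_cd P.φs
  have hout : ∀ k, Out (Φ k) := by
    intro k x hx
    cases k with
    | zero => exact PP_zero P S x hx
    | succ n =>
      show sc (MM lam n) φ x = 0
      unfold sc
      have hM : 1 ≤ MM lam n ^ 2 := by
        have h2 : ∀ m, 1 ≤ MM lam m ^ 2 := by
          intro m
          induction m with
          | zero => linarith [S.M0]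
          | succ m ih => linarith [S.M_succ m, sq_nonneg (MM lam m)]
        exact h2 n
      rw [P.φ0, smul_zero]
      rw [norm_smul, Real.norm_of_nonneg (by positivity)]
      nlinarith [norm_nonneg x]
  have hspan : u00 φ ψ ρ lam d ∈ Submodule.span ℝ (range Φ) := by
    have h0 : ∀ k, Φ k ∈ Submodule.span ℝ (range Φ) := fun k => Submodule.subset_span ⟨k, rfl⟩
    exact Submodule.add_mem _ (Submodule.add_mem _ (h0 1) (Submodule.smul_mem _ d (h0 2))) (h0 0)
  refine ⟨fun k => pe (Φ k), pe (u00 φ ψ ρ lam d), T, fun k => ⟨?_, ?_, ?_⟩, pe_span hspan, hT, ?_⟩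
  · exact pe_contDiff (hout k) (hsm k)
  · exact pe_per _
  · exact pe_div (hout k) (Fam_TF P S k).dv
  · intro u hu
    exact h _ (to_space (fun k => Fam_TF P S k) hout (span_out hout hspan) hT.le hu)

end Pool.Agent.H280R3.EU
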