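import Mathlib
import Pool.Agent.H280R3.EU.Tor

/-! The Galerkin system of the Navier–Stokes equations on an open set with Dirichlet conditions. -/

set_option autoImplicit false

open Set MeasureTheory Filter Topology Finset
open scoped RealInnerProductSpace ContDiff

namespace Pool.Agent.H280R3.EU

open Pool.Agent.H402R3

/-- Solutions on `[0, T]` of the Navier–Stokes equations on the open set `Ω` with viscosity `ν`,
without force, projected to the closed span of the fields `Φ 0, Φ 1, …` (compactly supported in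
`Ω`) in `L²(Ω)`. -/
structure DirSol (Ω : Set V) (ν : ℝ) (Φ : ℕ → V → V) (u0 : V → V) (T : ℝ) (u : ℝ → V → V) :
    Prop where
  init : ∀ x ∈ Ω, u 0 x = u0 x
  cd : ∀ t ∈ Icc 0 T, ContDiffOn ℝ 1 (u t) Ω
  dv : ∀ t ∈ Icc 0 T, ∀ x ∈ Ω, divg (u t) x = 0
  cl : ∀ t ∈ Icc 0 T, ∀ η > 0, ∃ w ∈ Submodule.span ℝ (range Φ),
    IntegrableOn (fun x => ‖u t x - w x‖ ^ 2) Ω ∧ ∫ x in Ω, ‖u t x - w x‖ ^ 2 ≤ η
  bdd : ∃ C, ∀ t ∈ Icc 0 T, ∀ x ∈ Ω, ‖u t x‖ ≤ C ∧ ‖fderiv ℝ (u t) x‖ ≤ C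
  eq : ∀ k, ∀ t ∈ Icc 0 T, HasDerivWithinAt (fun s => ∫ x in Ω, ⟪u s x, Φ k x⟫)
    ((∫ x in Ω, ⟪u t x, fderiv ℝ (Φ k) x (u t x)⟫)
      - ν * ∫ x in Ω, ∑ i, ⟪fderiv ℝ (u t) x (ev i), fderiv ℝ (Φ k) x (ev i)⟫) (Icc 0 T) t

section

variable {Φ : ℕ → V → V} {u0 : V → V} {T ν : ℝ} {u : ℝ → V → V} {Ω : Set V}

lemma dir_zero (hΩ : IsOpen Ω) (hΦ : ∀ k, Out (Φ k)) (h : DirSol Ω ν Φ u0 T u) {t : ℝ}
    (ht : t ∈ Icc 0 T) {x : V} (hx : x ∈ Ω) (h3 : 3 < ‖x‖) : u t x = 0 := by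
  have hcont : ContinuousOn (u t) Ω := (h.cd t ht).continuousOn
  set A : Set V := Ω ∩ {y | 3 < ‖y‖} with hA
  have hAo : IsOpen A := hΩ.inter (isOpen_lt continuous_const continuous_norm)
  have hAm : MeasurableSet A := hAo.measurableSet
  have hAc : A ⊆ Ω := fun y hy => hy.1
  have hle : ∀ η > 0, IntegrableOn (fun y => ‖u t y‖ ^ 2) A ∧ ∫ y in A, ‖u t y‖ ^ 2 ≤ η := by
    intro η hη
    obtain ⟨w, hw, hi, hle⟩ := h.cl t ht η hη
    have hwo := span_out hΦ hw
    have e0 : ∀ y ∈ A, ‖u t y - w y‖ ^ 2 = ‖u t y‖ ^ 2 := by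
      intro y hy
      rw [hwo y hy.2]
      simp
    refine ⟨(hi.mono_set hAc).congr_fun e0 hAm, le_trans ?_ hle⟩
    rw [← setIntegral_congr_fun hAm e0]
    exact setIntegral_mono_set hi (Eventually.of_forall fun y => sq_nonneg _)
      (Eventually.of_forall hAc)
  have h0 : ∫ y in A, ‖u t y‖ ^ 2 = 0 :=
    le_antisymm (le_of_forall_pos_le_add fun η hη => by simpa using (hle η hη).2)
      (setIntegral_nonneg hAm fun y _ => sq_nonneg _)
  by_contra hne
  have hpos : 0 < ∫ y in A, ‖u t y‖ ^ 2 := by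
    rw [setIntegral_pos_iff_support_of_nonneg_ae (Eventually.of_forall fun y => sq_nonneg _)
      (hle 1 one_pos).1]
    have ho : IsOpen (A ∩ (u t) ⁻¹' {0}ᶜ) :=
      (hcont.mono hAc).isOpen_inter_preimage hAo isOpen_compl_singleton
    have hsub : A ∩ (u t) ⁻¹' {0}ᶜ ⊆ (Function.support fun y => ‖u t y‖ ^ 2) ∩ A := by
      rintro y ⟨h1, h2⟩
      refine ⟨?_, h1⟩
      simp only [Function.mem_support]
      have : 0 < ‖u t y‖ := norm_pos_iff.2 h2
      positivity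
    exact lt_of_lt_of_le (ho.measure_pos volume ⟨x, ⟨hx, h3⟩, hne⟩) (measure_mono hsub)
  linarith

lemma int_dom (hΩ : IsOpen Ω) (hB : Metric.closedBall (0 : V) 3 ⊆ Ω) {F G : V → ℝ}
    (h1 : ∀ x, 3 < ‖x‖ → G x = 0) (h2 : ∀ x ∈ Ω, F x = G x) :
    ∫ x in Ω, F x = ∫ x, G x := by
  rw [setIntegral_congr_fun hΩ.measurableSet h2]
  refine setIntegral_eq_integral_of_forall_compl_eq_zero fun x hx => h1 x ?_
  by_contra h
  exact hx (hB (by simpa using h))

/-- From a solution on a domain containing the closed ball to a solution on `ℝ³`. -/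
theorem dom_to_space (hΩ : IsOpen Ω) (hB : Metric.closedBall (0 : V) 3 ⊆ Ω)
    (hΦo : ∀ k, Out (Φ k)) (hu0 : Out u0) (hT : 0 ≤ T)
    (h : DirSol Ω ν Φ u0 T u) : GSol ν Φ u0 T (fun t => cutoff (u t)) := by
  have hz : ∀ t ∈ Icc 0 T, ∀ x ∈ Ω, 3 < ‖x‖ → u t x = 0 := fun t ht x hx h3 =>
    dir_zero hΩ hΦo h ht hx h3
  have hball : ∀ x : V, ‖x‖ ≤ 3 → x ∈ Ω := fun x hx => hB (by simpa using hx)
  have hnear : ∀ t ∈ Icc 0 T, ∀ x, ‖x‖ ≤ 3 → cutoff (u t) =ᶠ[𝓝 x] u t := by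
    intro t ht x hx
    filter_upwards [hΩ.mem_nhds (hball x hx)] with y hy
    unfold cutoff
    split_ifs with h
    · rfl
    · exact (hz t ht y hy (not_le.1 h)).symm
  obtain ⟨C, hC⟩ := h.bdd
  have hC0 : 0 ≤ C := (norm_nonneg _).trans (hC 0 ⟨le_rfl, hT⟩ 0 (hball 0 (by simp))).1
  have hfd : ∀ t ∈ Icc 0 T, ∀ x, (‖x‖ ≤ 3 → fderiv ℝ (cutoff (u t)) x = fderiv ℝ (u t) x) ∧
      (3 < ‖x‖ → fderiv ℝ (cutoff (u t)) x = 0) := by
    intro t ht x
    refine ⟨fun hx => (hnear t ht x hx).fderiv_eq, fun hx => ?_⟩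
    rw [(cutoff_far (v := u t) hx).fderiv_eq]
    simp
  refine ⟨?_, ?_, ?_, ?_⟩
  · show cutoff (u 0) = u0
    funext x
    unfold cutoff
    split_ifs with h3
    · exact h.init x (hball x h3)
    · exact (hu0 x (not_le.1 h3)).symm
  · intro t ht
    refine ⟨⟨?_, ?_, ?_⟩, ?_⟩
    · rw [contDiff_iff_contDiffAt]
      intro x
      rcases le_or_gt ‖x‖ 3 with hx | hx
      · exact ((h.cd t ht).contDiffAt (hΩ.mem_nhds (hball x hx))).congr_of_eventuallyEq
          (hnear t ht x hx)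
      · exact contDiffAt_const.congr_of_eventuallyEq (cutoff_far hx)
    · exact HasCompactSupport.intro (isCompact_closedBall (0 : V) 3) fun x hx =>
        cutoff_out _ x (by simpa using hx)
    · intro x
      unfold divg
      rcases le_or_gt ‖x‖ 3 with hx | hx
      · rw [(hfd t ht x).1 hx]
        exact h.dv t ht x (hball x hx)
      · rw [(hfd t ht x).2 hx]
        simp
    · intro η hη
      obtain ⟨w, hw, hi, hle⟩ := h.cl t ht η hη
      have hwo := span_out hΦo hw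
      refine ⟨w, hw, le_trans (le_of_eq ?_) hle⟩
      symm
      refine int_dom hΩ hB (fun x hx => by simp [cutoff_out (u t) x hx, hwo x hx]) fun x hx => ?_
      show ‖u t x - w x‖ ^ 2 = ‖cutoff (u t) x - w x‖ ^ 2
      unfold cutoff
      split_ifs with h3
      · rfl
      · rw [hz t ht x hx (not_le.1 h3)]
  · refine ⟨C, fun t ht x => ⟨?_, ?_⟩⟩
    · show ‖cutoff (u t) x‖ ≤ C
      unfold cutoff
      split_ifs with h3
      · exact (hC t ht x (hball x h3)).1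
      · simpa using hC0
    · show ‖fderiv ℝ (cutoff (u t)) x‖ ≤ C
      rcases le_or_gt ‖x‖ 3 with hx | hx
      · rw [(hfd t ht x).1 hx]
        exact (hC t ht x (hball x hx)).2
      · rw [(hfd t ht x).2 hx]
        simpa using hC0
  · intro k t ht
    have h1 := h.eq k t ht
    have e1 : ∀ s ∈ Icc 0 T, ∫ x in Ω, ⟪u s x, Φ k x⟫ = ip (cutoff (u s)) (Φ k) := by
      intro s hs
      refine int_dom hΩ hB (fun x hx => by simp [cutoff_out (u s) x hx]) fun x hx => ?_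
      unfold cutoff
      split_ifs with h3
      · rfl
      · rw [hz s hs x hx (not_le.1 h3)]
    have e2 : ∫ x in Ω, ⟪u t x, fderiv ℝ (Φ k) x (u t x)⟫
        = tri (cutoff (u t)) (Φ k) (cutoff (u t)) := by
      refine int_dom hΩ hB (fun x hx => by simp [cutoff_out (u t) x hx]) fun x hx => ?_
      unfold cutoff
      split_ifs with h3
      · rfl
      · rw [hz t ht x hx (not_le.1 h3)]
    have e3 : ∫ x in Ω, ∑ i, ⟪fderiv ℝ (u t) x (ev i), fderiv ℝ (Φ k) x (ev i)⟫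
        = dir (cutoff (u t)) (Φ k) := by
      refine int_dom hΩ hB (fun x hx => by rw [(hfd t ht x).2 hx]; simp) fun x hx => ?_
      rcases le_or_gt ‖x‖ 3 with hx3 | hx3
      · rw [(hfd t ht x).1 hx3]
      · rw [fderiv_zero_of (hΦo k) x hx3]
        simp
    rw [e2, e3] at h1
    exact h1.congr (fun s hs => (e1 s hs).symm) (e1 t ht).symm

/-- the scaled field -/
noncomputable def scl (x0 : V) (r : ℝ) (f : V → V) : V → V := fun x => f (r⁻¹ • (x - x0))

/-- the preimage of `Ω` under `y ↦ x0 + r y` -/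
def dom (x0 : V) (r : ℝ) (Ω : Set V) : Set V := {y | x0 + r • y ∈ Ω}

lemma dom_open (x0 : V) (r : ℝ) (hΩ : IsOpen Ω) : IsOpen (dom x0 r Ω) :=
  hΩ.preimage (by fun_prop : Continuous fun y : V => x0 + r • y)

lemma scl_at (x0 : V) {r : ℝ} (hr : 0 < r) (f : V → V) (y : V) : scl x0 r f (x0 + r • y) = f y := by
  unfold scl
  rw [add_sub_cancel_left, smul_smul, inv_mul_cancel₀ hr.ne', one_smul]

lemma ind_eq (x0 : V) (r : ℝ) (Ω : Set V) (G : V → ℝ) :
    (dom x0 r Ω).indicator (fun y => G (x0 + r • y)) = fun y => Ω.indicator G (x0 + r • y) := by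
  funext y
  by_cases h : x0 + r • y ∈ Ω
  · rw [Set.indicator_of_mem (show y ∈ dom x0 r Ω from h), Set.indicator_of_mem h]
  · rw [Set.indicator_of_notMem (show y ∉ dom x0 r Ω from h), Set.indicator_of_notMem h]

lemma chg (x0 : V) {r : ℝ} (hr : 0 < r) (hΩ : IsOpen Ω) (G : V → ℝ) :
    ∫ y in dom x0 r Ω, G (x0 + r • y) = (r ^ 3)⁻¹ * ∫ x in Ω, G x := by
  rw [← integral_indicator (dom_open x0 r hΩ).measurableSet, ind_eq,
    ← integral_indicator hΩ.measurableSet]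
  have h1 := Measure.integral_comp_smul (volume : Measure V) (fun z => Ω.indicator G (x0 + z)) r
  rw [h1, integral_add_left_eq_self]
  simp only [finrank_euclideanSpace, Fintype.card_fin, smul_eq_mul]
  rw [abs_of_pos (by positivity)]

lemma chg_int (x0 : V) {r : ℝ} (hr : 0 < r) (hΩ : IsOpen Ω) {G : V → ℝ} (h : IntegrableOn G Ω) :
    IntegrableOn (fun y => G (x0 + r • y)) (dom x0 r Ω) := by
  rw [← integrable_indicator_iff (dom_open x0 r hΩ).measurableSet, ind_eq]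
  have h1 : Integrable (Ω.indicator G) := (integrable_indicator_iff hΩ.measurableSet).2 h
  have h2 : Integrable fun z => Ω.indicator G (x0 + z) := h1.comp_add_left x0
  exact (integrable_comp_smul_iff (volume : Measure V) _ hr.ne').2 h2

lemma fderiv_scl (x0 : V) {r : ℝ} (f : V → V) (x : V) (hf : DifferentiableAt ℝ f (r⁻¹ • (x - x0)))
    (v : V) : fderiv ℝ (scl x0 r f) x v = r⁻¹ • fderiv ℝ f (r⁻¹ • (x - x0)) v := by
  have h1 : HasFDerivAt (fun x : V => r⁻¹ • (x - x0)) (r⁻¹ • ContinuousLinearMap.id ℝ V) x :=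
    ((hasFDerivAt_id x).sub_const x0).const_smul r⁻¹
  have h2 := hf.hasFDerivAt.comp x h1
  have h3 : fderiv ℝ (scl x0 r f) x = _ := h2.fderiv
  rw [h3]
  simp

lemma fderiv_w (x0 : V) {r : ℝ} (hr : 0 < r) (f : V → V) (y : V)
    (hf : DifferentiableAt ℝ f (x0 + r • y)) :
    fderiv ℝ (fun y => r⁻¹ • f (x0 + r • y)) y = fderiv ℝ f (x0 + r • y) := by
  have h1 : HasFDerivAt (fun y : V => x0 + r • y) (r • ContinuousLinearMap.id ℝ V) y :=
    ((hasFDerivAt_id y).const_smul r).const_add x0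
  have h2 := (hf.hasFDerivAt.comp y h1).const_smul r⁻¹
  have h3 : fderiv ℝ (fun y => r⁻¹ • f (x0 + r • y)) y = _ := h2.fderiv
  rw [h3]
  ext v : 1
  simp [smul_smul, inv_mul_cancel₀ hr.ne']

lemma span_scl (x0 : V) {r : ℝ} (hr : 0 < r) {w : V → V}
    (hw : w ∈ Submodule.span ℝ (range fun k => scl x0 r (Φ k))) :
    (fun y => r⁻¹ • w (x0 + r • y)) ∈ Submodule.span ℝ (range Φ) := by
  induction hw using Submodule.span_induction with
  | mem x h =>
    obtain ⟨k, rfl⟩ := h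
    have e : (fun y => r⁻¹ • scl x0 r (Φ k) (x0 + r • y)) = r⁻¹ • Φ k := by
      funext y
      rw [scl_at x0 hr]
      rfl
    simp only [e]
    exact Submodule.smul_mem _ _ (Submodule.subset_span ⟨k, rfl⟩)
  | zero =>
    convert Submodule.zero_mem _ using 1
    funext y; simp
  | add a b _ _ ha hb =>
    convert Submodule.add_mem _ ha hb using 1
    funext y; simp
  | smul c a _ ha =>
    convert Submodule.smul_mem _ c ha using 1
    funext y
    exact smul_comm r⁻¹ c (a (x0 + r • y))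

/-- scaling of solutions -/
theorem scale_sol (x0 : V) {r : ℝ} (hr : 0 < r) (hΩ : IsOpen Ω) (hΦ : ∀ k, TF (Φ k))
    (h : DirSol Ω ν (fun k => scl x0 r (Φ k)) (r • scl x0 r u0) T u) :
    DirSol (dom x0 r Ω) (ν / r ^ 2) Φ u0 T (fun t y => r⁻¹ • u t (x0 + r • y)) := by
  have hdiff : ∀ t ∈ Icc 0 T, ∀ y ∈ dom x0 r Ω, DifferentiableAt ℝ (u t) (x0 + r • y) :=
    fun t ht y hy => ((h.cd t ht).contDiffAt (hΩ.mem_nhds hy)).differentiableAt (by norm_num)
  have hfw : ∀ t ∈ Icc 0 T, ∀ y ∈ dom x0 r Ω,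
      fderiv ℝ (fun y => r⁻¹ • u t (x0 + r • y)) y = fderiv ℝ (u t) (x0 + r • y) :=
    fun t ht y hy => fderiv_w x0 hr (u t) y (hdiff t ht y hy)
  have hfs : ∀ (k : ℕ) (y v : V),
      fderiv ℝ (Φ k) y v = r • fderiv ℝ (scl x0 r (Φ k)) (x0 + r • y) v := by
    intro k y v
    have e : r⁻¹ • (x0 + r • y - x0) = y := by
      rw [add_sub_cancel_left, smul_smul, inv_mul_cancel₀ hr.ne', one_smul]
    rw [fderiv_scl x0 (Φ k) (x0 + r • y)
      ((hΦ k).cd.differentiable (by norm_num)).differentiableAt, e, smul_smul,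
      mul_inv_cancel₀ hr.ne', one_smul]
  refine ⟨?_, ?_, ?_, ?_, ?_, ?_⟩
  · intro y hy
    show r⁻¹ • u 0 (x0 + r • y) = u0 y
    rw [h.init _ hy]
    show r⁻¹ • (r • scl x0 r u0 (x0 + r • y)) = u0 y
    rw [scl_at x0 hr, smul_smul, inv_mul_cancel₀ hr.ne', one_smul]
  · intro t ht
    refine ContDiffOn.const_smul _ ((h.cd t ht).comp ?_ fun y hy => hy)
    exact (contDiff_const.add (contDiff_id.const_smul r)).contDiffOn
  · intro t ht y hy
    unfold divg
    rw [hfw t ht y hy]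
    exact h.dv t ht _ hy
  · intro t ht η hη
    obtain ⟨w, hw, hi, hle⟩ := h.cl t ht (η * r ^ 5) (by positivity)
    have e : ∀ y : V, ‖r⁻¹ • u t (x0 + r • y) - r⁻¹ • w (x0 + r • y)‖ ^ 2
        = (r ^ 2)⁻¹ * ‖u t (x0 + r • y) - w (x0 + r • y)‖ ^ 2 := by
      intro y
      rw [← smul_sub, norm_smul, mul_pow, norm_inv, Real.norm_of_nonneg hr.le, inv_pow]
    refine ⟨_, span_scl x0 hr hw, ?_, ?_⟩
    · simp only [e]
      exact (chg_int x0 hr hΩ hi).const_mul _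
    · simp only [e]
      rw [integral_const_mul, chg x0 hr hΩ (fun x => ‖u t x - w x‖ ^ 2)]
      calc (r ^ 2)⁻¹ * ((r ^ 3)⁻¹ * ∫ x in Ω, ‖u t x - w x‖ ^ 2)
          ≤ (r ^ 2)⁻¹ * ((r ^ 3)⁻¹ * (η * r ^ 5)) := by gcongr
        _ = η := by field_simp
  · obtain ⟨C, hC⟩ := h.bdd
    refine ⟨(r⁻¹ + 1) * |C|, fun t ht y hy => ⟨?_, ?_⟩⟩
    · have h1 := (hC t ht _ hy).1.trans (le_abs_self C)
      rw [norm_smul, norm_inv, Real.norm_of_nonneg hr.le]
      have h2 : 0 < r⁻¹ := by positivity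
      nlinarith [mul_le_mul_of_nonneg_left h1 h2.le, abs_nonneg C]
    · rw [hfw t ht y hy]
      have h1 := (hC t ht _ hy).2.trans (le_abs_self C)
      have h2 : 0 < r⁻¹ := by positivity
      nlinarith [mul_nonneg h2.le (abs_nonneg C)]
  · intro k t ht
    have h1 := (h.eq k t ht).const_mul ((r ^ 4)⁻¹)
    have e1 : ∀ s, ∫ y in dom x0 r Ω, ⟪r⁻¹ • u s (x0 + r • y), Φ k y⟫
        = (r ^ 4)⁻¹ * ∫ x in Ω, ⟪u s x, scl x0 r (Φ k) x⟫ := by
      intro s
      have e : ∀ y : V, ⟪r⁻¹ • u s (x0 + r • y), Φ k y⟫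
          = r⁻¹ * (fun x => ⟪u s x, scl x0 r (Φ k) x⟫) (x0 + r • y) := by
        intro y
        simp only
        rw [scl_at x0 hr, real_inner_smul_left]
      simp only [e]
      rw [integral_const_mul, chg x0 hr hΩ (fun x => ⟪u s x, scl x0 r (Φ k) x⟫)]
      field_simp
    have e2 : ∫ y in dom x0 r Ω, ⟪r⁻¹ • u t (x0 + r • y),
          fderiv ℝ (Φ k) y (r⁻¹ • u t (x0 + r • y))⟫
        = (r ^ 4)⁻¹ * ∫ x in Ω, ⟪u t x, fderiv ℝ (scl x0 r (Φ k)) x (u t x)⟫ := by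
      have e : ∀ y : V, ⟪r⁻¹ • u t (x0 + r • y), fderiv ℝ (Φ k) y (r⁻¹ • u t (x0 + r • y))⟫
          = r⁻¹ * (fun x => ⟪u t x, fderiv ℝ (scl x0 r (Φ k)) x (u t x)⟫) (x0 + r • y) := by
        intro y
        simp only
        rw [hfs k y, map_smul, smul_smul, mul_inv_cancel₀ hr.ne', one_smul, real_inner_smul_left]
      simp only [e]
      rw [integral_const_mul, chg x0 hr hΩ
        (fun x => ⟪u t x, fderiv ℝ (scl x0 r (Φ k)) x (u t x)⟫)]
      field_simp
    have e3 : ∫ y in dom x0 r Ω, ∑ i, ⟪fderiv ℝ (fun y => r⁻¹ • u t (x0 + r • y)) y (ev i),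
          fderiv ℝ (Φ k) y (ev i)⟫
        = (r ^ 2)⁻¹ * ∫ x in Ω, ∑ i, ⟪fderiv ℝ (u t) x (ev i),
          fderiv ℝ (scl x0 r (Φ k)) x (ev i)⟫ := by
      have e : ∀ y ∈ dom x0 r Ω, (∑ i, ⟪fderiv ℝ (fun y => r⁻¹ • u t (x0 + r • y)) y (ev i),
          fderiv ℝ (Φ k) y (ev i)⟫)
          = r * (fun x => ∑ i, ⟪fderiv ℝ (u t) x (ev i),
            fderiv ℝ (scl x0 r (Φ k)) x (ev i)⟫) (x0 + r • y) := by
        intro y hy
        simp only
        rw [Finset.mul_sum]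
        refine Finset.sum_congr rfl fun i _ => ?_
        rw [hfw t ht y hy, hfs k y, real_inner_smul_right]
      rw [setIntegral_congr_fun (dom_open x0 r hΩ).measurableSet e, integral_const_mul,
        chg x0 hr hΩ (fun x => ∑ i, ⟪fderiv ℝ (u t) x (ev i),
            fderiv ℝ (scl x0 r (Φ k)) x (ev i)⟫)]
      field_simp
    have e4 : (r ^ 4)⁻¹ * ((∫ x in Ω, ⟪u t x, fderiv ℝ (scl x0 r (Φ k)) x (u t x)⟫)
        - ν * ∫ x in Ω, ∑ i, ⟪fderiv ℝ (u t) x (ev i), fderiv ℝ (scl x0 r (Φ k)) x (ev i)⟫)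
        = (r ^ 4)⁻¹ * (∫ x in Ω, ⟪u t x, fderiv ℝ (scl x0 r (Φ k)) x (u t x)⟫)
        - ν / r ^ 2 * ((r ^ 2)⁻¹ * ∫ x in Ω, ∑ i, ⟪fderiv ℝ (u t) x (ev i),
          fderiv ℝ (scl x0 r (Φ k)) x (ev i)⟫) := by
      field_simp
    simp only [e1]
    rw [e2, e3, ← e4]
    exact h1

end

/-- Breakdown for a Galerkin projection of the Navier–Stokes equations on any nonempty open set. -/
theorem dir_main (Ω : Set V) (hΩ : IsOpen Ω) (hne : Ω.Nonempty) (ν : ℝ) (hν : 0 ≤ ν) :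
    ∃ (Φ : ℕ → V → V) (u₀ : V → V) (T : ℝ),
      (∀ k, ContDiff ℝ ∞ (Φ k) ∧ HasCompactSupport (Φ k) ∧ tsupport (Φ k) ⊆ Ω ∧
        ∀ x, divg (Φ k) x = 0) ∧
      u₀ ∈ Submodule.span ℝ (range Φ) ∧ 0 < T ∧ ∀ u : ℝ → V → V, ¬ DirSol Ω ν Φ u₀ T u := by
  obtain ⟨x0, hx0⟩ := hne
  obtain ⟨R, hR, hball⟩ := Metric.isOpen_iff.1 hΩ x0 hx0
  set r := R / 4 with hr'
  have hr : 0 < r := by positivity
  have hcb : Metric.closedBall x0 (3 * r) ⊆ Ω := fun x hx => hball (by
    rw [Metric.mem_ball]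
    rw [Metric.mem_closedBall] at hx
    linarith)
  obtain ⟨φ, ρ, ψ, x₁, P⟩ := exists_prof
  obtain ⟨T, hT, lam, d, S, h⟩ := main_prof0 P (by positivity : 0 ≤ ν / r ^ 2)
  set Φ := Fam φ ψ ρ (MM lam) (EE lam) with hΦd
  have hsm : ∀ k, ContDiff ℝ ∞ (Φ k) := by
    intro k
    cases k with
    | zero => exact PP_smooth P S
    | succ n => exact sc_cd P.φs
  have hout : ∀ k, Out (Φ k) := by
    intro k x hx
    cases k with
    | zero => exact PP_zero P S x hx
    | succ n =>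
      show sc (MM lam n) φ x = 0
      unfold sc
      have hM : 1 ≤ MM lam n ^ 2 := by
        have h2 : ∀ m, 1 ≤ MM lam m ^ 2 := by
          intro m
          induction m with
          | zero => linarith [S.M0]
          | succ m ih => linarith [S.M_succ m, sq_nonneg (MM lam m)]
        exact h2 n
      rw [P.φ0, smul_zero]
      rw [norm_smul, Real.norm_of_nonneg (by positivity)]
      nlinarith [norm_nonneg x]
  have hspan : u00 φ ψ ρ lam d ∈ Submodule.span ℝ (range Φ) := by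
    have h0 : ∀ k, Φ k ∈ Submodule.span ℝ (range Φ) := fun k => Submodule.subset_span ⟨k, rfl⟩
    exact Submodule.add_mem _ (Submodule.add_mem _ (h0 1) (Submodule.smul_mem _ d (h0 2))) (h0 0)
  have hsupp : ∀ k x, x ∉ Metric.closedBall x0 (3 * r) → scl x0 r (Φ k) x = 0 := by
    intro k x hx
    refine hout k _ ?_
    rw [norm_smul, norm_inv, Real.norm_of_nonneg hr.le]
    rw [Metric.mem_closedBall, dist_eq_norm, not_le] at hx
    rw [lt_inv_mul_iff₀ hr]
    linarith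
  refine ⟨fun k => scl x0 r (Φ k), r • scl x0 r (u00 φ ψ ρ lam d), T,
    fun k => ⟨?_, ?_, ?_, ?_⟩, ?_, hT, ?_⟩
  · exact (hsm k).comp ((contDiff_id.sub contDiff_const).const_smul _)
  · exact HasCompactSupport.intro (isCompact_closedBall x0 (3 * r)) fun x hx => hsupp k x hx
  · refine (closure_minimal (fun x hx => ?_) Metric.isClosed_closedBall).trans hcb
    by_contra hxs
    exact hx (hsupp k x hxs)
  · intro x
    unfold divg
    have hTF := Fam_TF P S k
    simp only [fderiv_scl x0 (Φ k) x (hTF.cd.differentiable (by norm_num)).differentiableAt]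
    have := hTF.dv (r⁻¹ • (x - x0))
    unfold divg at this
    simp only [PiLp.smul_apply, smul_eq_mul]
    rw [← Finset.mul_sum, this, mul_zero]
  · refine Submodule.smul_mem _ _ ?_
    have key : ∀ w ∈ Submodule.span ℝ (range Φ),
        scl x0 r w ∈ Submodule.span ℝ (range fun k => scl x0 r (Φ k)) := by
      intro w hw
      induction hw using Submodule.span_induction with
      | mem x h =>
        obtain ⟨k, rfl⟩ := h
        exact Submodule.subset_span ⟨k, rfl⟩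
      | zero => exact Submodule.zero_mem _
      | add a b _ _ ha hb => exact Submodule.add_mem _ ha hb
      | smul c a _ ha => exact Submodule.smul_mem _ c ha
    exact key _ hspan
  · intro u hu
    have hTF : ∀ k, TF (Φ k) := fun k => Fam_TF P S k
    have h1 := scale_sol x0 hr hΩ hTF hu
    refine h _ (dom_to_space (dom_open x0 r hΩ) ?_ hout (span_out hout hspan) hT.le h1)
    intro y hy
    refine hcb ?_
    rw [Metric.mem_closedBall, dist_eq_norm, add_sub_cancel_left, norm_smul,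
      Real.norm_of_nonneg hr.le]
    have : ‖y‖ ≤ 3 := by simpa using hy
    nlinarith

end Pool.Agent.H280R3.EU
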