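import Mathlib
import Pool.Agent.H280R3.EU.Dir

/-! Short form of the Dirichlet statement. -/

set_option autoImplicit false

open Set MeasureTheory Filter Topology Finset
open scoped RealInnerProductSpace ContDiff

namespace Pool.Agent.H280R3.EU

open Pool.Agent.H402R3

/-- `∫_Ω u · v` -/
noncomputable def mass (Ω : Set V) (u v : V → V) : ℝ := ∫ x in Ω, ⟪u x, v x⟫

/-- `∫_Ω u · (Dv) u`, which is minus the integral of `((u · ∇) u) · v` for divergence-free `u` -/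
noncomputable def adv (Ω : Set V) (u v : V → V) : ℝ := ∫ x in Ω, ⟪u x, fderiv ℝ v x (u x)⟫

/-- `∫_Ω ∇u : ∇v` -/
noncomputable def diss (Ω : Set V) (u v : V → V) : ℝ :=
  ∫ x in Ω, ∑ i, ⟪fderiv ℝ u x (ev i), fderiv ℝ v x (ev i)⟫

/-- `v` is a limit in `L²(Ω)` of finite linear combinations of the `Φ k` -/
def InCl (Ω : Set V) (Φ : ℕ → V → V) (v : V → V) : Prop :=
  ∀ η > 0, ∃ w ∈ Submodule.span ℝ (range Φ),
    IntegrableOn (fun x => ‖v x - w x‖ ^ 2) Ω ∧ ∫ x in Ω, ‖v x - w x‖ ^ 2 ≤ η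

/-- Solutions on `[0, T]` of the Navier–Stokes equations on the open set `Ω` with viscosity `ν`,
without force, projected to the closed span of the fields `Φ 0, Φ 1, …` (compactly supported in
`Ω`) in `L²(Ω)`. -/
structure DSol (Ω : Set V) (ν : ℝ) (Φ : ℕ → V → V) (u0 : V → V) (T : ℝ) (u : ℝ → V → V) :
    Prop where
  init : ∀ x ∈ Ω, u 0 x = u0 x
  cd : ∀ t ∈ Icc 0 T, ContDiffOn ℝ 1 (u t) Ω
  dv : ∀ t ∈ Icc 0 T, ∀ x ∈ Ω, divg (u t) x = 0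
  cl : ∀ t ∈ Icc 0 T, InCl Ω Φ (u t)
  bdd : ∃ C, ∀ t ∈ Icc 0 T, ∀ x ∈ Ω, ‖u t x‖ ≤ C ∧ ‖fderiv ℝ (u t) x‖ ≤ C
  eq : ∀ k, ∀ t ∈ Icc 0 T, HasDerivWithinAt (fun s => mass Ω (u s) (Φ k))
    (adv Ω (u t) (Φ k) - ν * diss Ω (u t) (Φ k)) (Icc 0 T) t

theorem DSol.toDir {Ω : Set V} {ν : ℝ} {Φ : ℕ → V → V} {u0 : V → V} {T : ℝ} {u : ℝ → V → V}
    (h : DSol Ω ν Φ u0 T u) : DirSol Ω ν Φ u0 T u :=
  ⟨h.init, h.cd, h.dv, h.cl, h.bdd, h.eq⟩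

/-- the fields `Φ k` are smooth, compactly supported in `Ω` and divergence-free -/
def Admissible (Ω : Set V) (Φ : ℕ → V → V) : Prop :=
  ∀ k, ContDiff ℝ ∞ (Φ k) ∧ HasCompactSupport (Φ k) ∧ tsupport (Φ k) ⊆ Ω ∧ ∀ x, divg (Φ k) x = 0

/-- Breakdown for a Galerkin projection of the Navier–Stokes equations on any nonempty open set. -/
theorem dir_short (Ω : Set V) (hΩ : IsOpen Ω) (hne : Ω.Nonempty) (ν : ℝ) (hν : 0 ≤ ν) :
    ∃ (Φ : ℕ → V → V) (u₀ : V → V) (T : ℝ), Admissible Ω Φ ∧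
      u₀ ∈ Submodule.span ℝ (range Φ) ∧ 0 < T ∧ ∀ u : ℝ → V → V, ¬ DSol Ω ν Φ u₀ T u := by
  obtain ⟨Φ, u₀, T, h1, h2, h3, h4⟩ := dir_main Ω hΩ hne ν hν
  exact ⟨Φ, u₀, T, h1, h2, h3, fun u hu => h4 u hu.toDir⟩

end Pool.Agent.H280R3.EU
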