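import Mathlib
import Pool.Agent.H280R3.EU.Tor

/-! Time scaling for the projected Euler equations: breakdown before any prescribed time. -/

set_option autoImplicit false

open Set MeasureTheory Filter Topology Finset
open scoped RealInnerProductSpace ContDiff

namespace Pool.Agent.H280R3.EU

open Pool.Agent.H402R3

theorem time_scale {Ψ : ℕ → V → V} {u0 : V → V} {T T0 : ℝ} {u : ℝ → V → V} (hT0 : 0 < T0)
    (hT : 0 < T) (h : TorSol Ψ ((T0 / T) • u0) T u) :
    TorSol Ψ u0 T0 (fun t => (T0 / T)⁻¹ • u ((T0 / T)⁻¹ * t)) := by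
  set c : ℝ := (T0 / T)⁻¹ with hc
  have hc0 : 0 < c := by positivity
  have hcT : c * T0 = T := by rw [hc]; field_simp
  have hmem : ∀ t ∈ Icc 0 T0, c * t ∈ Icc 0 T := by
    intro t ht
    refine ⟨mul_nonneg hc0.le ht.1, ?_⟩
    rw [← hcT]
    exact mul_le_mul_of_nonneg_left ht.2 hc0.le
  have hfd : ∀ t ∈ Icc 0 T0, ∀ x, fderiv ℝ (c • u (c * t)) x = c • fderiv ℝ (u (c * t)) x := by
    intro t ht x
    exact fderiv_const_smul ((h.cd _ (hmem t ht)).differentiable (by norm_num)).differentiableAt c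
  refine ⟨?_, ?_, ?_, ?_, ?_, ?_, ?_⟩
  · show c • u (c * 0) = u0
    rw [mul_zero, h.init, smul_smul, hc, inv_mul_cancel₀ (by positivity), one_smul]
  · intro t ht i x
    show c • u (c * t) (x + (2 * Real.pi) • ev i) = c • u (c * t) x
    rw [h.per _ (hmem t ht) i x]
  · intro t ht
    exact (h.cd _ (hmem t ht)).const_smul c
  · intro t ht x
    unfold divg
    rw [hfd t ht x]
    have := h.dv _ (hmem t ht) x
    unfold divg at this
    simp only [_root_.smul_apply, PiLp.smul_apply, smul_eq_mul]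
    rw [← Finset.mul_sum, this, mul_zero]
  · intro t ht η hη
    obtain ⟨w, hw, hle⟩ := h.cl _ (hmem t ht) (η / c ^ 2) (by positivity)
    refine ⟨c • w, Submodule.smul_mem _ c hw, ?_⟩
    have e : ∀ x : V, ‖(c • u (c * t)) x - (c • w) x‖ ^ 2 = c ^ 2 * ‖u (c * t) x - w x‖ ^ 2 := by
      intro x
      show ‖c • u (c * t) x - c • w x‖ ^ 2 = _
      rw [← smul_sub, norm_smul, mul_pow, Real.norm_of_nonneg hc0.le]
    simp only [e]
    rw [integral_const_mul]
    calc c ^ 2 * ∫ x in cell, ‖u (c * t) x - w x‖ ^ 2 ≤ c ^ 2 * (η / c ^ 2) := by gcongr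
      _ = η := by field_simp
  · obtain ⟨C, hC⟩ := h.bdd
    refine ⟨c * C, fun t ht x => ⟨?_, ?_⟩⟩
    · show ‖c • u (c * t) x‖ ≤ c * C
      rw [norm_smul, Real.norm_of_nonneg hc0.le]
      exact mul_le_mul_of_nonneg_left (hC _ (hmem t ht) x).1 hc0.le
    · rw [hfd t ht x, norm_smul, Real.norm_of_nonneg hc0.le]
      exact mul_le_mul_of_nonneg_left (hC _ (hmem t ht) x).2 hc0.le
  · intro k t ht
    have h1 := h.eq k _ (hmem t ht)
    have h2 : HasDerivWithinAt (fun s : ℝ => c * s) c (Icc 0 T0) t := by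
      simpa using (hasDerivWithinAt_id t (Icc 0 T0)).const_mul c
    have h3 := (HasDerivWithinAt.comp t h1 h2 (fun s hs => hmem s hs)).const_mul c
    have e1 : (fun s => ∫ x in cell, ⟪(c • u (c * s)) x, Ψ k x⟫) =
        fun s => c * ((fun s => ∫ x in cell, ⟪u s x, Ψ k x⟫) ∘ fun s => c * s) s := by
      funext s
      simp only [Function.comp]
      rw [← integral_const_mul]
      refine integral_congr_ae (Eventually.of_forall fun x => ?_)
      show ⟪c • u (c * s) x, Ψ k x⟫ = c * ⟪u (c * s) x, Ψ k x⟫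
      rw [real_inner_smul_left]
    have e2 : ∫ x in cell, ⟪(c • u (c * t)) x, fderiv ℝ (Ψ k) x ((c • u (c * t)) x)⟫
        = c * ((∫ x in cell, ⟪u (c * t) x, fderiv ℝ (Ψ k) x (u (c * t) x)⟫) * c) := by
      rw [← integral_mul_const, ← integral_const_mul]
      refine integral_congr_ae (Eventually.of_forall fun x => ?_)
      show ⟪c • u (c * t) x, fderiv ℝ (Ψ k) x (c • u (c * t) x)⟫ =
        c * (⟪u (c * t) x, fderiv ℝ (Ψ k) x (u (c * t) x)⟫ * c)
      rw [map_smul, real_inner_smul_left, real_inner_smul_right]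
      ring
    show HasDerivWithinAt (fun s => ∫ x in cell, ⟪(c • u (c * s)) x, Ψ k x⟫)
      (∫ x in cell, ⟪(c • u (c * t)) x, fderiv ℝ (Ψ k) x ((c • u (c * t)) x)⟫) (Icc 0 T0) t
    rw [e1, e2]
    exact h3

/-- Breakdown before any prescribed time. -/
theorem tor_main_T : ∃ (Ψ : ℕ → V → V),
    (∀ k, ContDiff ℝ ∞ (Ψ k) ∧ Per (Ψ k) ∧ ∀ x, divg (Ψ k) x = 0) ∧
    ∀ T > 0, ∃ u₀ ∈ Submodule.span ℝ (range Ψ), ∀ u : ℝ → V → V, ¬ TorSol Ψ u₀ T u := by
  obtain ⟨Ψ, u₀, T0, h1, h2, hT0, h3⟩ := tor_main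
  refine ⟨Ψ, h1, fun T hT => ⟨(T0 / T) • u₀, Submodule.smul_mem _ _ h2, fun u hu => ?_⟩⟩
  exact h3 _ (time_scale hT0 hT hu)

end Pool.Agent.H280R3.EU
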